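import Pool.Agent.Lib.MSB.Weighted
import Pool.Agent.Lib.MP.Main

/-!
# Maynard's theorem for arbitrary shifts, primes counted in a sub-block of the tuple

`maynard_sub`: as MP.Main (`maynard_two`), for every k = 2^J with J + 1 ≥ 48000 c₁² s (4r+5), and
with at least r primes among the n + h i, i ∈ I, for any set I of indices with k ≤ s |I|; all
n + h i, i < k, are free of prime factors ≤ N^δ. PROOF SKETCH: as maynard_two, from weighted_sub.
-/

open Finset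
open scoped Classical

namespace Pool.Agent.Lib.MSB

open Pool.Agent.Lib.MT Pool.Agent.Lib.MP Pool.Agent.HLB

theorem maynard_sub : ∃ c1 : ℕ, ∀ r s J k : ℕ, 1 ≤ s → k = 2 ^ J →
    48000 * c1 ^ 2 * (s * (4 * r + 4 + 1)) ≤ J + 1 → ∃ (c δ : ℝ), 0 < c ∧ 0 < δ ∧ δ ≤ 1 ∧
    ∀ K₀ D : ℕ, 2 * k ≤ D → ∃ N₀ : ℕ, ∀ N ≥ N₀, ∀ v : ℕ,
    ∀ h : Fin k → ℕ, Function.Injective h → (∀ i, (h i : ℝ) ≤ N * Real.log N ^ K₀) →
    (∀ i, Nat.Coprime (v + h i) (primorial D)) →
    ∀ I : Finset (Fin k), k ≤ s * I.card →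
    c * ((N:ℝ) / primorial D) * (GG (zN N) (primorial D) h / (DZ (zN N) * Real.log N) ^ k) ≤
      (((Finset.Ioc N (2*N)).filter (fun n => n ≡ v [MOD primorial D] ∧
        Rough ((N:ℝ) ^ δ) h n ∧
        r ≤ (I.filter (fun i => (n + h i).Prime)).card)).card : ℝ) := by
  obtain ⟨c1, hB₀⟩ := weighted_sub
  refine ⟨c1, fun r s₀ J k hs₀ hkJ hJ1 => ?_⟩
  obtain ⟨c, C, δ, hc, hC, hδ, H⟩ := hB₀ r s₀ J k hs₀ hkJ hJ1
  have hk : 1 ≤ k := by rw [hkJ]; exact Nat.one_le_two_pow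
  set E : ℝ := (2:ℝ) ^ (3 * k / δ + k : ℝ) with hE
  have hE0 : 0 < E := by positivity
  have hk1 : (0:ℝ) < (k:ℝ) + 1 := by positivity
  refine ⟨c / ((k + 1) * (E * C) ^ 2), min δ 1, by positivity,
    lt_min hδ one_pos, min_le_right _ _, ?_⟩
  intro K₀ D hD
  obtain ⟨N₀, HN⟩ := H K₀ D hD
  obtain ⟨N₁, HN1⟩ := nuN_bounds k
  obtain ⟨N₂, HN2⟩ := Filter.eventually_atTop.1 (PrimeSumTwoAux.shift_facts K₀)
  refine ⟨max (max N₀ N₁) (max N₂ 4), ?_⟩
  intro N hN v h hinj hhN' hcop I hIk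
  have hN2 : N₂ ≤ N := (le_max_left _ _).trans ((le_max_right _ _).trans hN)
  have hhN : ∀ i, h i ≤ N ^ 2 := by
    intro i
    have e1 : (h i : ℝ) ≤ (N:ℝ) * N :=
      (hhN' i).trans (mul_le_mul_of_nonneg_left (HN2 N hN2).1 (Nat.cast_nonneg _))
    rw [pow_two]
    exact_mod_cast e1
  have hN0 : N₀ ≤ N := (le_max_left _ _).trans ((le_max_left _ _).trans hN)
  have hN1 : N₁ ≤ N := (le_max_right _ _).trans ((le_max_left _ _).trans hN)
  have hN4 : 4 ≤ N := (le_max_right _ _).trans ((le_max_right _ _).trans hN)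
  obtain ⟨R, ρ, hR1, hR2, hsum, hlam⟩ := HN N hN0 v h hinj hhN' hcop I hIk
  obtain ⟨hν1, hν2⟩ := HN1 N hN1 h hinj hhN
  set W : ℕ := primorial D with hWdef
  have hW1 : 0 < W := primorial_pos D
  have hWr : (0:ℝ) < W := by exact_mod_cast hW1
  set lam : Asg (Pr (WN N h) R) k → ℝ := lamOf (yOf (gst ρ J) R) with hlamdef
  set T : ℝ := nuN N h * Real.log N with hT
  set G : ℝ := GG (zN N) W h with hG
  have hN4r : (4:ℝ) ≤ N := by exact_mod_cast hN4
  have hWN : 0 < WN N h := by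
    unfold WN Dl
    refine Nat.mul_pos (primorial_pos _) ?_
    refine Finset.prod_pos fun i _ => Finset.prod_pos fun j _ => ?_
    split_ifs with hij
    · exact one_pos
    · refine Int.natAbs_pos.mpr ?_
      rw [sub_ne_zero]
      exact fun hh => hij (hinj (by exact_mod_cast hh))
  have hdens : 0 < nuN N h := by
    unfold nuN Pool.Agent.Lib.MT.dens
    have h1 : 0 < (WN N h).totient := Nat.totient_pos.mpr hWN
    have h2 : (0:ℝ) < (WN N h).totient := by exact_mod_cast h1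
    have h3 : (0:ℝ) < WN N h := by exact_mod_cast hWN
    (clear * - hWN; positivity)
  have hDZ : 0 < DZ (zN N) := hdens.trans_le hν2
  have hlog : 0 < Real.log N := Real.log_pos (by linarith only [hN4r])
  have hT0 : 0 < T := mul_pos hdens hlog
  set X : ℕ → ℕ := fun n => (I.filter (fun i : Fin k => (n + h i).Prime)).card with hX
  set A := (Finset.Ioc N (2*N)).filter (fun n => n ≡ v [MOD W] ∧
        Rough ((N:ℝ) ^ δ) h n) with hA
  set B := A.filter (fun n => r ≤ X n) with hB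
  have hXk : ∀ n, X n ≤ k := by
    intro n
    calc X n ≤ (Finset.univ : Finset (Fin k)).card := Finset.card_le_univ _
      _ = k := by simp
  -- the bound of the terms
  have hwn : ∀ n ∈ A, wn h lam n ≤ (E * C) ^ 2 * T ^ (2 * k) := by
    intro n hn
    have hn' := Finset.mem_filter.mp hn
    have hn1 := Finset.mem_Ioc.mp hn'.1
    have hpr := mem_Pr_WN N R h hinj
    have h1 := wn_le3 (P := Pr (WN N h) R) (k := k)
      (fun p hp => (hpr p hp).1) N hN4 δ hδ h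
      (fun p hp i j hij => (hpr p hp).2.2.2 i j hij) hhN lam (C * T ^ k) hlam n
      (by omega) hn1.2 (fun p hp i hpd => hn'.2.2 i p (hpr p hp).1 hpd)
    refine h1.trans (le_of_eq ?_)
    rw [← hE, pow_mul']
    ring
  have hsumle : ∑ n ∈ A, (((X n : ℕ) : ℝ) - ((r:ℝ) - 1)) * wn h lam n ≤
      (B.card : ℝ) * ((k + 1) * ((E * C) ^ 2 * T ^ (2 * k))) := by
    have hcardsum : (B.card : ℝ) * ((k + 1) * ((E * C) ^ 2 * T ^ (2 * k))) =
        ∑ n ∈ A, if r ≤ X n then ((k:ℝ) + 1) * ((E * C) ^ 2 * T ^ (2 * k)) else 0 := by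
      rw [← Finset.sum_filter, Finset.sum_const, nsmul_eq_mul]
    rw [hcardsum]
    refine Finset.sum_le_sum ?_
    intro n hn
    have hw0 : 0 ≤ wn h lam n := by unfold wn; exact sq_nonneg _
    split_ifs with hr
    · refine mul_le_mul ?_ (hwn n hn) hw0 hk1.le
      have h1 : ((X n : ℕ):ℝ) ≤ k := by exact_mod_cast hXk n
      have h2 : (0:ℝ) ≤ r := Nat.cast_nonneg r
      linarith only [h1]
    · have h1 : X n + 1 ≤ r := by omega
      have h2 : ((X n : ℕ):ℝ) + 1 ≤ r := by exact_mod_cast h1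
      exact mul_nonpos_of_nonpos_of_nonneg (by linarith only [h2]) hw0
  have hmain : c * ((N:ℝ) / W) * G * T ^ k ≤
      (B.card : ℝ) * ((k + 1) * ((E * C) ^ 2 * T ^ (2 * k))) := hsum.trans hsumle
  have hδle : (N:ℝ) ^ (min δ 1) ≤ (N:ℝ) ^ δ :=
    Real.rpow_le_rpow_of_exponent_le (by linarith only [hN4r]) (min_le_left _ _)
  have hBsub : B ⊆ (Finset.Ioc N (2*N)).filter (fun n => n ≡ v [MOD W] ∧
        Rough ((N:ℝ) ^ (min δ 1)) h n ∧
        r ≤ (I.filter (fun i => (n + h i).Prime)).card) := by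
    intro n hn
    have hn1 := Finset.mem_filter.mp hn
    have hn2 := Finset.mem_filter.mp hn1.1
    refine Finset.mem_filter.mpr ⟨hn2.1, hn2.2.1, ?_, hn1.2⟩
    intro i p hp hpd
    exact hδle.trans_lt (hn2.2.2 i p hp hpd)
  have hcard : (B.card : ℝ) ≤ ((Finset.Ioc N (2*N)).filter (fun n => n ≡ v [MOD W] ∧
        Rough ((N:ℝ) ^ (min δ 1)) h n ∧
        r ≤ (I.filter (fun i => (n + h i).Prime)).card)).card := by
    exact_mod_cast Finset.card_le_card hBsub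
  refine le_trans ?_ hcard
  have hTk : 0 < T ^ k := by (clear * - hdens hlog; positivity)
  -- division by `T ^ k`
  have h3 : c / ((k + 1) * (E * C) ^ 2) * ((N:ℝ) / W) * (G / T ^ k) ≤ B.card := by
    have h4 : c / ((k + 1) * (E * C) ^ 2) * ((N:ℝ) / W) * (G / T ^ k) =
        (c * ((N:ℝ) / W) * G * T ^ k) / ((k + 1) * ((E * C) ^ 2 * T ^ (2 * k))) := by
      rw [two_mul, pow_add]
      field_simp
    rw [h4, div_le_iff₀ (by (clear * - hk hC hdens hlog; positivity))]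
    exact hmain
  rcases le_or_gt G 0 with hG0 | hG0
  · have h5 : G / (DZ (zN N) * Real.log N) ^ k ≤ 0 :=
      div_nonpos_of_nonpos_of_nonneg hG0 (by (clear * - hDZ hlog; positivity))
    have h6 : 0 ≤ c / ((k + 1) * (E * C) ^ 2) * ((N:ℝ) / W) := by (clear * - hk hc hC hN4 hW1; positivity)
    exact (mul_nonpos_of_nonneg_of_nonpos h6 h5).trans (Nat.cast_nonneg _)
  · refine le_trans ?_ h3
    refine mul_le_mul_of_nonneg_left ?_ (by (clear * - hk hc hC hN4 hW1; positivity))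
    refine div_le_div_of_nonneg_left hG0.le hTk ?_
    exact pow_le_pow_left₀ hT0.le (mul_le_mul_of_nonneg_right hν2 hlog.le) k

/-- `maynard_sub` for one large exponent `J`. -/
theorem maynard_subE (s r : ℕ) (hs : 1 ≤ s) : ∃ (J : ℕ) (c δ : ℝ), s ≤ J ∧ r ≤ J ∧ 0 < c ∧
    0 < δ ∧ δ ≤ 1 ∧
    ∀ K₀ D : ℕ, 2 * 2 ^ J ≤ D → ∃ N₀ : ℕ, ∀ N ≥ N₀, ∀ v : ℕ,
    ∀ h : Fin (2 ^ J) → ℕ, Function.Injective h → (∀ i, (h i : ℝ) ≤ N * Real.log N ^ K₀) →
    (∀ i, Nat.Coprime (v + h i) (primorial D)) →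
    ∀ I : Finset (Fin (2 ^ J)), 2 ^ J ≤ s * I.card →
    c * ((N:ℝ) / primorial D) *
        (GG (zN N) (primorial D) h / (DZ (zN N) * Real.log N) ^ (2 ^ J)) ≤
      (((Finset.Ioc N (2*N)).filter (fun n => n ≡ v [MOD primorial D] ∧
        Rough ((N:ℝ) ^ δ) h n ∧
        r ≤ (I.filter (fun i => (n + h i).Prime)).card)).card : ℝ) := by
  obtain ⟨c1, H⟩ := maynard_sub
  obtain ⟨c, δ, hc, hδ, hδ1, H1⟩ := H r s (48000 * c1 ^ 2 * (s * (4 * r + 4 + 1)) + s + r)
    (2 ^ (48000 * c1 ^ 2 * (s * (4 * r + 4 + 1)) + s + r)) hs rfl (by omega)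
  exact ⟨48000 * c1 ^ 2 * (s * (4 * r + 4 + 1)) + s + r, c, δ, by omega, by omega, hc, hδ, hδ1,
    H1⟩

end Pool.Agent.Lib.MSB
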